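import Pool.Agent.helper60.DB.SpecF

/-!
# Row bf:L5: the forms of discriminant `-60` and the Legendre symbols of `5` and `-3`
-/

set_option autoImplicit false

namespace Pool.Agent.helper60.DB

theorem L5_q5 : ∀ x : ZMod 5, (3 : ZMod 5) ≠ x * x := by decide

theorem L5_q3 : ∀ x : ZMod 3, (2 : ZMod 3) ≠ x * x := by decide

theorem L5_five (p : ℕ) [Fact p.Prime] (hp : 7 ≤ p) :
    haveI : Fact (Nat.Prime 5) := ⟨by norm_num⟩
    legendreSym p 5 = legendreSym 5 (p : ℤ) := by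
  have : Fact (Nat.Prime 5) := ⟨by norm_num⟩
  exact legendreSym.quadratic_reciprocity_one_mod_four (p := 5) (q := p) (by norm_num) (by omega)

theorem L5_neg3 (p : ℕ) [Fact p.Prime] (hp : 7 ≤ p) :
    haveI : Fact (Nat.Prime 3) := ⟨by norm_num⟩
    legendreSym p (-3) = legendreSym 3 (p : ℤ) := by
  have : Fact (Nat.Prime 3) := ⟨by norm_num⟩
  have h1 : legendreSym p (-3) = legendreSym p (-1) * legendreSym p 3 := by
    rw [← legendreSym.mul]
    norm_num
  have h2 : legendreSym p ((3 : ℕ) : ℤ) = (-1) ^ (3 / 2 * (p / 2)) * legendreSym 3 (p : ℤ) :=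
    legendreSym.quadratic_reciprocity' (p := 3) (q := p) (by norm_num) (by omega)
  have h3 : p % 2 = 1 := (Fact.out : p.Prime).eq_two_or_odd.resolve_left (by omega)
  have h4 : legendreSym p (-1) = (-1) ^ (p / 2) := by
    rw [legendreSym.at_neg_one (by omega), ZMod.χ₄_eq_neg_one_pow h3]
  have h5 : legendreSym p 3 = (-1) ^ (3 / 2 * (p / 2)) * legendreSym 3 (p : ℤ) := by
    exact_mod_cast h2
  rw [h1, h4, h5, ← mul_assoc, ← pow_add]
  have h6 : Even (p / 2 + 3 / 2 * (p / 2)) := ⟨p / 2, by omega⟩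
  rw [h6.neg_one_pow, one_mul]

theorem L5_mod (l : ℕ) [Fact l.Prime] (n c a : ℤ) (h : (l : ℤ) ∣ n - c * a ^ 2)
    (hn : ¬ (l : ℤ) ∣ n) : legendreSym l n = legendreSym l c := by
  have h1 : (n : ZMod l) = ((c * a ^ 2 : ℤ) : ZMod l) := by
    have h2 := (ZMod.intCast_zmod_eq_zero_iff_dvd (n - c * a ^ 2) l).2 h
    push_cast at h2 ⊢
    linear_combination h2
  have h3 : (a : ZMod l) ≠ 0 := by
    intro h4
    apply hn
    rw [← ZMod.intCast_zmod_eq_zero_iff_dvd, h1]
    push_cast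
    rw [h4]
    ring
  have h5 : legendreSym l n = legendreSym l (c * a ^ 2) := by
    rw [legendreSym, legendreSym, h1]
  rw [h5, legendreSym.mul, legendreSym.sq_one' l h3, mul_one]

/-- Row bf:L5. -/
theorem L5 : L5_stmt := by
  intro p _ hp a b
  have hpp : p.Prime := Fact.out
  have i3 : Fact (Nat.Prime 3) := ⟨by norm_num⟩
  have i5 : Fact (Nat.Prime 5) := ⟨by norm_num⟩
  have h3 : ¬ ((3 : ℕ) : ℤ) ∣ (p : ℤ) := by
    intro h
    have h1 : 3 ∣ p := by exact_mod_cast h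
    rcases (Nat.dvd_prime hpp).1 h1 with h2 | h2 <;> omega
  have h5 : ¬ ((5 : ℕ) : ℤ) ∣ (p : ℤ) := by
    intro h
    have h1 : 5 ∣ p := by exact_mod_cast h
    rcases (Nat.dvd_prime hpp).1 h1 with h2 | h2 <;> omega
  have e53 : legendreSym 5 3 = -1 := by
    rw [legendreSym.eq_neg_one_iff]
    rintro ⟨x, hx⟩
    exact L5_q5 x (by exact_mod_cast hx)
  have e32 : legendreSym 3 2 = -1 := by
    rw [legendreSym.eq_neg_one_iff]
    rintro ⟨x, hx⟩
    exact L5_q3 x (by exact_mod_cast hx)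
  refine ⟨fun h => ⟨?_, ?_, ?_⟩, fun h => ⟨?_, ?_, ?_⟩⟩
  · rw [L5_five p hp, L5_mod 5 (p : ℤ) 1 a ⟨3 * b ^ 2, by push_cast; linear_combination h⟩ h5]
    exact legendreSym.at_one _
  · rw [L5_neg3 p hp, L5_mod 3 (p : ℤ) 1 a ⟨5 * b ^ 2, by push_cast; linear_combination h⟩ h3]
    exact legendreSym.at_one _
  · rintro rfl
    push_cast at h
    have h1 : b ^ 2 < 1 := by nlinarith [sq_nonneg a]
    have h2 : b ^ 2 = 0 := by nlinarith [sq_nonneg b]
    rw [h2] at h
    have h3 : a ^ 2 = 11 := by linarith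
    have h4 : a < 4 := by nlinarith
    have h5 : -4 < a := by nlinarith
    interval_cases a <;> omega
  · rw [L5_five p hp, L5_mod 5 (p : ℤ) 3 a ⟨b ^ 2, by push_cast; linear_combination h⟩ h5]
    exact e53
  · rw [L5_neg3 p hp, L5_mod 3 (p : ℤ) 2 b ⟨a ^ 2 + b ^ 2, by push_cast; linear_combination h⟩ h3]
    exact e32
  · rintro rfl
    push_cast at h
    have h1 : b < 2 := by nlinarith [sq_nonneg a]
    have h2 : -2 < b := by nlinarith [sq_nonneg a]
    have h4 : a < 2 := by nlinarith [sq_nonneg b]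
    have h5 : -2 < a := by nlinarith [sq_nonneg b]
    interval_cases a <;> interval_cases b <;> omega

end Pool.Agent.helper60.DB
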