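import Pool.Agent.helper60.DB.SpecM

set_option autoImplicit false

namespace Pool.Agent.helper60.DB

open Polynomial

theorem TP (hRR : RR_stmt) : TP_stmt := by
  intro K _ _ A B y g u e hY
  obtain ⟨hP, hC, hX, hop, hdiv⟩ := hRR K
  have h1 : Rt (1 : PowerSeries K) := by
    have := hP 1
    rwa [Polynomial.coe_one] at this
  have h0 : Rt (0 : PowerSeries K) := by
    have := hP 0
    rwa [Polynomial.coe_zero] at this
  have hmul : ∀ a b : PowerSeries K, Rt a → Rt b → Rt (a * b) := fun a b ha hb => (hop a b ha hb).2.1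
  have hneg : ∀ a : PowerSeries K, Rt a → Rt (-a) := fun a ha => (hop a a ha ha).2.2.2
  have hadd : ∀ a b : PowerSeries K, Rt a → Rt b → Rt (a + b) := fun a b ha hb => (hop a b ha hb).1
  have hyy : Rt (y ^ 2) := by
    rw [hY.sq]
    refine hadd _ _ (hadd _ _ h1 (hmul _ _ (hC A) hX)) (hmul _ _ (hC B) ?_)
    rw [pow_two]
    exact hmul _ _ hX hX
  have hy0 : y ^ 2 ≠ 0 := by
    intro h
    have h2 := congrArg PowerSeries.constantCoeff h
    rw [map_pow, hY.one, map_zero, one_pow] at h2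
    exact one_ne_zero h2
  refine ⟨?_, ⟨fun _ => ⟨h1, ?_⟩, fun h => absurd h (by decide)⟩,
    ⟨fun h => absurd h (by decide), fun _ => ⟨by rw [mul_zero]; exact h0, h1⟩⟩, ?_, ?_⟩
  · rintro ⟨ho, he⟩
    rcases Int.even_or_odd e with h | h
    · refine hdiv (y ^ 2) _ (PowerSeries.X * ((y * g) * (y * g))) hyy
        (hmul _ _ hX (hmul _ _ (he h).1 (he h).1)) hy0 ?_
      ring
    · rw [pow_two]
      exact hmul _ _ hX (hmul _ _ (ho h).1 (ho h).1)
  · rw [← pow_two]
    exact hyy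
  · rintro ⟨ho, he⟩
    refine ⟨fun h => ⟨hneg _ (ho h).1, (ho h).2⟩, fun h => ⟨?_, (he h).2⟩⟩
    rw [mul_neg]
    exact hneg _ (he h).1
  · rintro e' hee ⟨ho, he⟩
    refine ⟨fun h => ho ?_, fun h => he ?_⟩
    · have h3 := hee.add_odd h
      rwa [sub_add_cancel] at h3
    · have h3 := hee.add h
      rwa [sub_add_cancel] at h3

end Pool.Agent.helper60.DB
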